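import Mathlib
import Pool.Agent.H.MP_9152e2_an.Dyn
import Pool.Agent.H.MP_9152e2_an.Grp
import Pool.Agent.H.MP_9152e2_an.Levy

set_option autoImplicit false

open Finset MeasureTheory Filter Topology
open scoped ENNReal

namespace Pool.Agent.Results.MP_9152e2_an.TypeIII

open Pool.Agent.H.MP_9152e2_an

theorem result : ∃ (G : Type) (_ : NormedAddCommGroup G) (_ : CompleteSpace G)
    (_ : SecondCountableTopology G) (_ : MeasurableSpace G) (_ : BorelSpace G),
    (∃ (K : ℕ → AddSubgroup G) (m : ∀ n, Measure (K n)), Monotone K ∧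
      (∀ n, IsCompact (K n : Set G)) ∧ Dense (⋃ n, (K n : Set G)) ∧
      (∀ n, IsProbabilityMeasure (m n) ∧ (m n).IsAddLeftInvariant) ∧
      ∀ A : ∀ n, Set (K n), (∀ n, MeasurableSet (A n)) →
        0 < liminf (fun n => m n (A n)) atTop →
        ∀ ε : ℝ, 0 < ε → Tendsto (fun n => m n (Metric.thickening ε (A n))) atTop (𝓝 1)) ∧
    ∃ (X : Type) (_ : MeasurableSpace X) (_ : StandardBorelSpace X) (_ : AddAction G X)
      (μ : Measure X), Measurable (fun q : G × X => q.1 +ᵥ q.2) ∧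
      IsProbabilityMeasure μ ∧ (∀ x, μ {x} = 0) ∧
      (∀ g : G, μ.map (fun x => g +ᵥ x) ≪ μ ∧ μ ≪ μ.map (fun x => g +ᵥ x)) ∧
      (∀ S : Set X, MeasurableSet S → (∀ g : G, (fun x => g +ᵥ x) ⁻¹' S = S) →
        μ S = 0 ∨ μ Sᶜ = 0) ∧
      ¬ ∃ ν : Measure X, SigmaFinite ν ∧ (∀ g : G, ν.map (fun x => g +ᵥ x) = ν) ∧
        ν ≪ μ ∧ μ ≪ ν := by
  obtain ⟨A, hA⟩ : ∃ A : ℕ → ℕ, ∀ n, A n = 4000 * (n + 1) * 2 ^ n := ⟨_, fun _ => rfl⟩
  obtain ⟨L, hL⟩ : ∃ L : ℕ → ℕ, ∀ n, L n = (n + 1) * (54 * A n) ^ 3 := ⟨_, fun _ => rfl⟩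
  obtain ⟨M, hM⟩ : ∃ M : ℕ → ℕ, ∀ n, M n = A n * L n := ⟨_, fun _ => rfl⟩
  have A0 : ∀ n, 0 < A n := fun n => by rw [hA]; positivity
  have L1 : ∀ n, n + 1 ≤ L n := fun n => by
    rw [hL]; exact Nat.le_mul_of_pos_right _ (by have := A0 n; positivity)
  have L0 : ∀ n, (0 : ℝ) < L n := fun n => by have := L1 n; exact_mod_cast (by omega)
  have L1' : ∀ n : ℕ, (n : ℝ) + 1 ≤ L n := fun n => by exact_mod_cast L1 n
  have M1 : ∀ n, 1 ≤ M n := fun n => by
    rw [hM]; exact Nat.mul_pos (A0 n) (by have := L1 n; omega)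
  obtain ⟨N, p, d, t, hN, hp, hD, hd, s1, s2⟩ := tower M (fun n => (n + 1) * (54 * M n) ^ 3) M1
  have d1 : ∀ n, (1 : ℝ) ≤ d n := fun n => by exact_mod_cast hd n
  have δ0 : ∀ n, (0 : ℝ) < 1 / L n := fun n => by have := L0 n; positivity
  have δ1 : ∀ n, (1 : ℝ) / L n ≤ 1 := fun n => by
    rw [div_le_one (L0 n)]; linarith [L1' n, (n.cast_nonneg : (0 : ℝ) ≤ n)]
  choose r hr r1 hE T₁ T₂ t1 t2 t3 using fun n => law_exists (δ0 n) (δ1 n) (n + 1) (by omega)
  choose E E1 E2 using hE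
  have c0 : ∀ i : Σ n, Fin (d n), (0 : ℝ) < 1 / (d i.1 * M i.1) := fun i => by
    have := hd i.1; have := M1 i.1; positivity
  have ws : HasSum (fun i : Σ n, Fin (d n) => (1 / 2 : ℝ) ^ i.1 / d i.1) 2 := by
    have e : ∀ n, ∑' _ : Fin (d n), (1 / 2 : ℝ) ^ n / d n = (1 / 2 : ℝ) ^ n := fun n => by
      have := d1 n
      rw [tsum_fintype, sum_const, card_univ, Fintype.card_fin, nsmul_eq_mul]; field_simp
    have sm : Summable (fun i : Σ n, Fin (d n) => (1 / 2 : ℝ) ^ i.1 / d i.1) :=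
      (summable_sigma_of_nonneg fun i => by positivity).2 ⟨fun _ => .of_finite, by
        simpa only [e] using summable_geometric_two⟩
    convert sm.hasSum using 1
    rw [sm.tsum_sigma]
    simp only [e, tsum_geometric_two]
  have Aq : ∀ n : ℕ, (A n : ℝ) * (1 / 2) ^ n = 4000 * (n + 1) := fun n => by
    rw [hA]; push_cast; rw [mul_assoc _ (2 ^ n : ℝ), ← mul_pow]; norm_num
  obtain ⟨G, X, i1, i2, i3, i4, i5, i6, i7, i8, ι, ψ, hι, hψ, z, n1, n2, F, Ω, B, mF, mΩ, mB,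
      BΩ, inj, add, fib, mem, memB⟩ := groups (I := Σ n, Fin (d n)) (fun i => 1 / L i.1)
    (fun i => 1 / (d i.1 * M i.1)) (fun i => δ0 i.1) c0
    (Summable.of_nonneg_of_le (fun _ => sq_nonneg _) (fun i => by
      have a1 := d1 i.1
      have a2 := L0 i.1
      have a3 : (1 : ℝ) ≤ A i.1 := by exact_mod_cast A0 i.1
      have a4 := Aq i.1
      have a5 : (0 : ℝ) ≤ i.1 := by positivity
      have e : (1 / (d i.1 * M i.1) / (1 / L i.1) : ℝ) ^ 2 = 1 / (d i.1 * A i.1 * A i.1) / d i.1 := by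
        rw [hM]; push_cast; field_simp
      rw [e]
      gcongr
      rw [div_le_iff₀ (by positivity)]
      have a6 : (1 : ℝ) ≤ d i.1 * A i.1 := one_le_mul_of_one_le_of_one_le a1 a3
      nlinarith) ws.summable)
    ((AddSubgroup.zmultiples (1 : ℚ)).comap (pr N t).toAddMonoidHom)
    fun b hb h0 => sep M1 hN hp hd s1 b hb h0
  have law : ∀ i : Σ n, Fin (d n), Law (r i.1) (1 / L i.1) := fun i => hr i.1
  have := PP_prob law
  have mo : ∫⁻ x, ∑' i : Σ n, Fin (d n), ENNReal.ofReal |x i * (1 / (d i.1 * M i.1) : ℝ)|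
      ∂PP (fun i : Σ n, Fin (d n) => r i.1) ≤ ENNReal.ofReal (3 / 100 * 2) := by
    rw [moment law _ (fun i => E i.1) (fun i => (c0 i).le) fun i => E2 i.1,
      ← (ws.mul_left (3 / 100)).tsum_eq, ENNReal.ofReal_tsum_of_nonneg (fun _ => by positivity)
        (ws.mul_left _).summable]
    refine ENNReal.tsum_le_tsum fun i => ENNReal.ofReal_le_ofReal
      ((mul_le_mul_of_nonneg_left (E1 _) (c0 i).le).trans_eq ?_)
    have a1 := d1 i.1
    have a2 := L0 i.1
    have a3 : (1 : ℝ) ≤ A i.1 := by exact_mod_cast A0 i.1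
    have a4 : ((1 / 2 : ℝ)) ^ i.1 = 4000 * (i.1 + 1) / A i.1 := by
      rw [← Aq]; field_simp
    rw [a4, hM]; push_cast; field_simp; norm_num
  have ms : Measurable fun x : (Σ n, Fin (d n)) → ℤ =>
      ∑' i : Σ n, Fin (d n), ENNReal.ofReal |x i * (1 / (d i.1 * M i.1) : ℝ)| :=
    Measurable.tsum fun i => (Measurable.of_discrete
      (f := fun k : ℤ => ENNReal.ofReal |k * (1 / (d i.1 * M i.1) : ℝ)|)).comp
        (measurable_pi_apply i)
  have Ω1 : PP (fun i : Σ n, Fin (d n) => r i.1) Ωᶜ = 0 :=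
    mem_ae_iff.1 ((ae_lt_top ms (mo.trans_lt ENNReal.ofReal_lt_top).ne).mono mem)
  have B1 : PP (fun i : Σ n, Fin (d n) => r i.1) Bᶜ < 3 / 16 := by
    refine (le_trans (measure_mono ?_)
      (meas_ge_le_lintegral_div ms.aemeasurable (ε := 1 / 2) (by simp) (by simp))).trans_lt ?_
    · exact fun x hx => not_lt.1 fun h => hx (memB x h)
    refine (ENNReal.div_le_div_right mo _).trans_lt ?_
    rw [show (1 / 2 : ℝ≥0∞) = ENNReal.ofReal (1 / 2) by simp,
      show (3 / 16 : ℝ≥0∞) = ENNReal.ofReal (3 / 16) by simp [ENNReal.ofReal_div_of_pos],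
      ← ENNReal.ofReal_div_of_pos (by norm_num), ENNReal.ofReal_lt_ofReal_iff (by norm_num)]
    norm_num
  have q := quasi (δ := fun i : Σ n, Fin (d n) => 1 / L i.1) (fun i => (δ0 i.1).le) law hι hψ n2
    mF Ω1 add
  borelize G
  refine ⟨G, i1, i2, i3, inferInstance, inferInstance, levy hN hp (δ := fun n => 1 / L n)
    (fun n => by have := hd n; have := M1 n; positivity) s2 (fun n => ?_) (fun n => ?_) ψ hψ z n1,
    X, i7, inferInstance, AddAction.compHom X ι,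
    (PP fun i : Σ n, Fin (d n) => r i.1).map F, ?_,
    Measure.isProbabilityMeasure_map mF.aemeasurable, noAtoms mF Ω1 (fun x => ?_) fib,
    fun g => ⟨?_, ?_⟩, fun S hS hi => ergodic law mF mΩ Ω1 add hS hi, ?_⟩
  · have a1 : (n + 1 : ℝ) * (54 * M n) ^ 3 ≤ d n := by exact_mod_cast hD n
    have a2 : (0 : ℝ) < (54 * M n) ^ 3 := by have := M1 n; positivity
    have a3 : (1 / L n : ℝ) ^ 2 ≤ 1 := pow_le_one₀ (δ0 n).le (δ1 n)
    rw [mul_div_assoc', mul_div_mul_left _ _ (by norm_num), le_div_iff₀ a2]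
    refine le_trans ?_ a1
    gcongr
    exact mul_le_of_le_one_right (by positivity) a3
  · have a1 : (L n : ℝ) = (n + 1) * (54 * A n) ^ 3 := by rw [hL]; push_cast; ring
    have a2 := L0 n
    have a3 : (0 : ℝ) < A n := by exact_mod_cast A0 n
    refine le_of_eq ?_
    rw [hM]
    push_cast
    field_simp
    rw [a1]
    ring
  · exact ((hι.comp continuous_fst).add continuous_snd).measurable
  · refine le_antisymm (ge_of_tendsto' (by
      simpa using ENNReal.tendsto_ofReal (tendsto_one_div_add_atTop_nhds_zero_nat (𝕜 := ℝ)))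
      fun n => ?_) zero_le
    refine (point_le law x ⟨n, ⟨0, hd n⟩⟩).trans (ENNReal.ofReal_le_ofReal ((r1 n _).trans ?_))
    rw [one_div]
    exact inv_anti₀ (by positivity) (L1' n)
  · refine Measure.AbsolutelyContinuous.mk fun S hS h0 => ?_
    exact (Measure.map_apply (measurable_const_add (ι g)) hS).trans (q g hS h0)
  · refine Measure.AbsolutelyContinuous.mk fun S hS h0 => ?_
    have := q (-g) (measurable_const_add (ι g) hS)
      ((Measure.map_apply (measurable_const_add (ι g)) hS).symm.trans h0)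
    simpa [← Set.preimage_comp, Function.comp_def] using this
  · rintro ⟨ν, _, hν, -, ac⟩
    refine typeIII law mF add mB BΩ inj B1 (fun C => ?_) ν hν ac
    obtain ⟨n, hn⟩ := exists_nat_ge (C / (Real.exp (-40) / 6))
    rw [div_le_iff₀ (by positivity)] at hn
    have k : ∀ T : Set ℤ, 3 / 8 ≤ ∑' k, T.indicator (r n) k → 3 / 8 ≤ mz (r n) T := fun T hT => by
      rw [mz_apply (fun k => ((hr n).1 k).le) (hr n).2.1.summable,
        show (3 / 8 : ℝ≥0∞) = ENNReal.ofReal (3 / 8) by simp [ENNReal.ofReal_div_of_pos]]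
      exact ENNReal.ofReal_le_ofReal hT
    refine ⟨⟨n, ⟨0, hd n⟩⟩, T₁ n, T₂ n, k _ (t1 n), k _ (t2 n), fun a ha b hb =>
      le_trans (mul_le_mul_of_nonneg_right ?_ ((hr n).1 b).le) (t3 n a ha b hb)⟩
    push_cast
    nlinarith [Real.exp_pos (-40)]

end Pool.Agent.Results.MP_9152e2_an.TypeIII
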